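import Mathlib

/-!
# An alternative for generic points (helper266)
-/

set_option autoImplicit false

open Set Filter Topology

namespace Pool.Agent.N266.GQ

theorem ev_int {X : Type*} [TopologicalSpace X] {A : Set X} (hA : IsClosed A) :
    ∀ᶠ x in residual X, x ∈ A → x ∈ interior A := by
  have h1 : IsOpen (frontier A)ᶜ := isClosed_frontier.isOpen_compl
  have h2 : Dense (frontier A)ᶜ := interior_eq_empty_iff_dense_compl.1 (interior_frontier hA)
  filter_upwards [residual_of_dense_open h1 h2] with x hx hxA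
  by_contra hno
  exact hx ⟨subset_closure hxA, hno⟩

/-- If a property of the upper limits of the functions `d s φ` is inherited, with a small loss, by
the generic neighbours of a generic point, then the space has two disjoint open sets with dense
union, such that at the generic points of the first one no upper limit is positive, and near each
point of the second one the upper limit of one `d s` is at least a positive constant at all generic
points. -/
theorem alternative {F A : Type*} [TopologicalSpace F] [BaireSpace F] (S : Set A)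
    (hS : S.Countable) (d : A → F → ℕ → ℝ) (G : Set F)
    (h : ∀ φ ∈ G, ∀ s ∈ S, ∀ ε ε' : ℝ, ε < ε' → (∀ᶠ k in atTop, d s φ k ≤ ε) →
      ∃ V ∈ 𝓝 φ, ∀ ψ ∈ V, ψ ∈ G → ∀ᶠ k in atTop, d s ψ k ≤ ε') :
    ∃ U₁ U₂ : Set F, IsOpen U₁ ∧ IsOpen U₂ ∧ Disjoint U₁ U₂ ∧ Dense (U₁ ∪ U₂) ∧
      (∀ᶠ φ in residual F, φ ∈ G → φ ∈ U₁ → ∀ s ∈ S, ∀ ε : ℝ, 0 < ε →
        ∀ᶠ k in atTop, d s φ k ≤ ε) ∧
      ∀ φ ∈ U₂, ∃ s ∈ S, ∃ ε : ℝ, 0 < ε ∧ ∃ V ∈ 𝓝 φ, ∀ ψ ∈ V, ψ ∈ G →
        ∃ᶠ k in atTop, ε < d s ψ k := by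
  set O : A → ℝ → Set F := fun s ε => interior {ψ | ψ ∈ G → ∀ᶠ k in atTop, d s ψ k ≤ ε} with hO
  have hO1 : ∀ s ∈ S, ∀ ε ε' : ℝ, ε < ε' → ∀ φ ∈ G, (∀ᶠ k in atTop, d s φ k ≤ ε) →
      φ ∈ O s ε' := by
    intro s hs ε ε' hε φ hφ hk
    obtain ⟨V, hV, h1⟩ := h φ hφ s hs ε ε' hε hk
    rw [hO]
    exact mem_interior_iff_mem_nhds.2 (Filter.mem_of_superset hV fun ψ hψ hG => h1 ψ hψ hG)
  set W : Set F := ⋂ s ∈ S, ⋂ n : ℕ, O s (1 / ((n : ℝ) + 1)) with hW
  have hWG : IsGδ W :=
    IsGδ.biInter hS fun s _ => IsGδ.iInter fun n => isOpen_interior.isGδ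
  set N : Set F := ⋃ s ∈ S, ⋃ n : ℕ, interior (O s (1 / ((n : ℝ) + 1)))ᶜ with hN
  have hNo : IsOpen N := isOpen_biUnion fun s _ => isOpen_iUnion fun n => isOpen_interior
  have hU1W : interior (closure W) ⊆ closure W := interior_subset
  -- residual sets
  have R1 : ∀ᶠ φ in residual F, φ ∈ interior (closure W) → φ ∈ W := by
    have h1 : IsGδ (W ∪ (closure (interior (closure W)))ᶜ) :=
      hWG.union isClosed_closure.isOpen_compl.isGδ
    have h2 : Dense (W ∪ (closure (interior (closure W)))ᶜ) := by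
      intro x
      by_cases hx : x ∈ closure W
      · exact closure_mono subset_union_left hx
      · refine subset_closure (Or.inr fun hx' => hx ?_)
        exact (closure_mono hU1W).trans (by rw [closure_closure]) hx'
    filter_upwards [residual_of_dense_Gδ h1 h2] with φ hφ hφ1
    rcases hφ with h3 | h3
    · exact h3
    · exact absurd (subset_closure hφ1) h3
  have R2 : ∀ᶠ φ in residual F, ∀ s ∈ S, ∀ n : ℕ, φ ∈ (O s (1 / ((n : ℝ) + 1)))ᶜ →
      φ ∈ interior (O s (1 / ((n : ℝ) + 1)))ᶜ := by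
    refine (eventually_countable_ball hS).2 fun s _ => ?_
    refine eventually_countable_forall.2 fun n => ?_
    exact ev_int isOpen_interior.isClosed_compl
  have R3 : ∀ᶠ φ in residual F, φ ∈ interior (closure W) ∪ (closure W)ᶜ := by
    have h1 : IsOpen (interior (closure W) ∪ (closure W)ᶜ) :=
      isOpen_interior.union isClosed_closure.isOpen_compl
    have h2 : Dense (interior (closure W) ∪ (closure W)ᶜ) := by
      have h3 : interior (closure W) ∪ (closure W)ᶜ = (frontier (closure W))ᶜ := by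
        ext x
        rw [mem_union, mem_compl_iff, mem_compl_iff, isClosed_closure.frontier_eq, Set.mem_sdiff]
        tauto
      rw [h3]
      exact interior_eq_empty_iff_dense_compl.1 (interior_frontier isClosed_closure)
    exact residual_of_dense_open h1 h2
  refine ⟨interior (closure W), (closure W)ᶜ ∩ N, isOpen_interior,
    isClosed_closure.isOpen_compl.inter hNo, ?_, ?_, ?_, ?_⟩
  · rw [Set.disjoint_left]
    intro x hx hx'
    exact hx'.1 (hU1W hx)
  · have h1 : ∀ᶠ φ in residual F, φ ∈ interior (closure W) ∪ ((closure W)ᶜ ∩ N) := by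
      filter_upwards [R2, R3] with φ h2 h3
      rcases h3 with h3 | h3
      · exact Or.inl h3
      · refine Or.inr ⟨h3, ?_⟩
        have h4 : φ ∉ W := fun h5 => h3 (subset_closure h5)
        rw [hW] at h4
        simp only [mem_iInter, not_forall] at h4
        obtain ⟨s, hs, n, h5⟩ := h4
        rw [hN]
        simp only [mem_iUnion]
        exact ⟨s, hs, n, h2 s hs n h5⟩
    exact dense_of_mem_residual h1
  · filter_upwards [R1] with φ h1 hG hφ s hs ε hε
    have h2 := h1 hφ
    rw [hW] at h2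
    simp only [mem_iInter] at h2
    obtain ⟨n, hn⟩ := exists_nat_one_div_lt hε
    have h3 := interior_subset (h2 s hs n)
    filter_upwards [h3 hG] with k hk
    exact hk.trans hn.le
  · rintro φ ⟨-, hφ⟩
    rw [hN] at hφ
    simp only [mem_iUnion] at hφ
    obtain ⟨s, hs, n, hφ⟩ := hφ
    have hn : (0 : ℝ) < 1 / ((n : ℝ) + 1) := by positivity
    refine ⟨s, hs, 1 / ((n : ℝ) + 1) / 2, by positivity, _, isOpen_interior.mem_nhds hφ,
      fun ψ hψ hG => ?_⟩
    by_contra hno
    rw [not_frequently] at hno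
    have h4 : ∀ᶠ k in atTop, d s ψ k ≤ 1 / ((n : ℝ) + 1) / 2 := by
      filter_upwards [hno] with k hk
      exact not_lt.1 hk
    exact interior_subset hψ (hO1 s hs _ _ (by linarith) ψ hG h4)

end Pool.Agent.N266.GQ
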