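import Pool.Agent.Q205.QLim.Fin
import Pool.Agent.Y264.QR.All
import Pool.Agent.N266.GQ.Alt

/-!
# Generic conformal metrics and quantum limits along a sequence of indices (helper266)

The first four lines of the theorem are helper205's theorem `generic_main`.
-/

set_option autoImplicit false

open Set Filter Topology MeasureTheory
open scoped Real ContDiff
open Pool.Agent.Y262.QE Pool.Agent.Y264.QR Pool.Agent.Q205.QLim

noncomputable section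

namespace Pool.Agent.N266.GQ

section abs

variable {M : Type} [MetricSpace M] [CompactSpace M] [MeasurableSpace M] [BorelSpace M]
  (μ : Measure M) [IsFiniteMeasure μ] {H : Type} [NormedAddCommGroup H] [InnerProductSpace ℝ H]
  (i : H →L[ℝ] Lp ℝ 2 μ) (a : H →L[ℝ] H →L[ℝ] ℝ) (b : C(M, ℝ) → H →L[ℝ] H →L[ℝ] ℝ)
  (hSf : Sf μ i a) (hB : IsB μ i b) (hW : Wl μ a b)
  {F : Type} [AddCommGroup F] [Module ℝ F] [TopologicalSpace F]
  [IsTopologicalAddGroup F] [ContinuousSMul ℝ F] (ι : F →L[ℝ] C(M, ℝ)) (hι : DenseRange ι)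
  (hex : ∀ φ, ∃ (e : ℕ → H) (E : ℕ → ℝ), Eg a (b φ) e E)
  (e : F → ℕ → H) (E : F → ℕ → ℝ) (hE : ∀ φ, Eg a (b (ι φ)) (e φ) (E φ))

theorem ue_of_eg {φ : C(M, ℝ)} {e : ℕ → H} {E : ℕ → ℝ} (hE : Eg a (b φ) e E) (j : ℕ) :
    UE a (b φ) (E j) (e j) := ⟨by rw [hE.orth, if_pos rfl], hE.eig j⟩

/-- the generic metrics: what is used of `generic_main` -/
structure Gen (J : ℕ → ℕ) (φ : F) : Prop where
  simp : ∀ j, 0 < E φ j → E φ j < E φ (j + 1)
  lo : ∀ (f : C(M, ℝ)) (c : ℝ), c < avg μ f (ι φ) →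
    ∃ᶠ k in atTop, c < kap μ i f (ι φ) (e φ (J k))
  loc : ∀ (f : C(M, ℝ)) (c : ℝ), (∀ᶠ k in atTop, kap μ i f (ι φ) (e φ (J k)) ≤ c) →
    ∀ ε : ℝ, 0 < ε → ∃ V ∈ 𝓝 φ, ∃ K : ℕ, ∀ ψ ∈ V, ∀ k, K ≤ k →
      (∀ l, l ≠ J k → E ψ l ≠ E ψ (J k)) → kap μ i f (ι ψ) (e ψ (J k)) ≤ c + ε

include hSf hB hW hι hex hE in
theorem gen {J : ℕ → ℕ} (hJ : Tendsto J atTop atTop) :
    ∀ᶠ φ in residual F, Gen μ i ι e E J φ := by
  obtain ⟨hF, -, -, -⟩ := facts μ i a b hSf hB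
  have hmm : ∀ φ j, Ev a (b (ι φ)) j = E φ j := fun φ j =>
    Pool.Agent.Y592.QE.mm _ a (b (ι φ)) (hF (ι φ)) (e φ) (E φ) (hE φ) j
  filter_upwards [generic_main μ i a b hSf hB hex hW ι hι hJ] with φ h
  obtain ⟨h1, h2, h3⟩ := h
  refine ⟨fun j hj => ?_, fun f c hc => ?_, fun f c hc ε hε => ?_⟩
  · refine simple_of_const μ i a b hSf hB (hE φ) fun f v w hv hw => ?_
    refine h1 f j ?_ v w ?_ ?_
    · rw [hmm]; exact hj
    · rw [hmm]; exact hv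
    · rw [hmm]; exact hw
  · refine (h2 f c hc).mono fun k hk => hk _ ?_
    rw [hmm]
    exact ue_of_eg a b (hE φ) (J k)
  · obtain ⟨V, hV, K, h4⟩ := h3 f c (hc.mono fun k hk => ⟨e φ (J k), by
      rw [hmm]; exact ue_of_eg a b (hE φ) (J k), hk⟩) ε hε
    refine ⟨V, hV, K, fun ψ hψ k hk hs => ?_⟩
    refine h4 ψ hψ k hk (fun g v w hv hw => ?_) _ ?_
    · rw [hmm] at hv hw
      rw [kap_of_simple μ i a b hSf hB (hE ψ) hs hv g,
        kap_of_simple μ i a b hSf hB (hE ψ) hs hw g]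
    · rw [hmm]
      exact ue_of_eg a b (hE ψ) (J k)

include hSf hB hW hι hex hE in
theorem alt [BaireSpace F] {J : ℕ → ℕ} (hJ : Tendsto J atTop atTop) :
    ∃ U₁ U₂ : Set F, IsOpen U₁ ∧ IsOpen U₂ ∧ Disjoint U₁ U₂ ∧ Dense (U₁ ∪ U₂) ∧
      (∀ᶠ φ in residual F, φ ∈ U₁ → ∀ f : C(M, ℝ),
        Tendsto (fun k => kap μ i f (ι φ) (e φ (J k))) atTop (𝓝 (avg μ f (ι φ)))) ∧
      ∀ φ ∈ U₂, ∃ (f : C(M, ℝ)) (ε : ℝ), 0 < ε ∧ ∃ V ∈ 𝓝 φ, ∀ᶠ ψ in residual F, ψ ∈ V →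
        ∃ᶠ k in atTop, avg μ f (ι ψ) + ε < kap μ i f (ι ψ) (e ψ (J k)) := by
  obtain ⟨hF, hA, hexp, hk⟩ := facts μ i a b hSf hB
  have hmm : ∀ φ j, Ev a (b (ι φ)) j = E φ j := fun φ j =>
    Pool.Agent.Y592.QE.mm _ a (b (ι φ)) (hF (ι φ)) (e φ) (E φ) (hE φ) j
  obtain ⟨S, hSc, hSn, hSd⟩ := exists_countable (M := M) ι hι
  have hkf : ∀ (f g : C(M, ℝ)) (φ : F) (j : ℕ),
      |kap μ i f (ι φ) (e φ j) - kap μ i g (ι φ) (e φ j)| ≤ ‖f - g‖ := by
    intro f g φ j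
    have := kap_sub_left μ i b hB f g (ι φ) (e φ j)
    rwa [(ue_of_eg a b (hE φ) j).1, mul_one] at this
  -- the eigenvalues are positive from some index on
  have hpos : ∀ φ : F, ∀ᶠ j in atTop, 0 < E φ j := fun φ =>
    (hE φ).tt.eventually_gt_atTop 0
  obtain ⟨U₁, U₂, o1, o2, o3, o4, o5, o6⟩ := alternative (A := F) S hSc
    (fun s φ k => kap μ i (ι s) (ι φ) (e φ (J k)) - avg μ (ι s) (ι φ))
    {φ | Gen μ i ι e E J φ} (by
      intro φ hφ s hs ε ε' hε hev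
      have hφ' : Gen μ i ι e E J φ := hφ
      set δ : ℝ := (ε' - ε) / 2 with hδ
      have hδ0 : 0 < δ := by rw [hδ]; linarith
      obtain ⟨V, hV, K, h1⟩ := hφ'.loc (ι s) (ε + avg μ (ι s) (ι φ))
        (hev.mono fun k hk => by linarith) δ hδ0
      have hcont : ContinuousAt (fun ψ : F => avg μ (ι s) (ι ψ)) φ :=
        ((avg_continuous μ hA (ι s)).comp ι.continuous).continuousAt
      have hV2 : {ψ : F | avg μ (ι s) (ι φ) - δ < avg μ (ι s) (ι ψ)} ∈ 𝓝 φ :=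
        hcont.eventually_const_lt (by linarith)
      refine ⟨_, Filter.inter_mem hV hV2, fun ψ hψ hG => ?_⟩
      have hG' : Gen μ i ι e E J ψ := hG
      have hev2 : ∀ᶠ k in atTop, 0 < E ψ (J k - 1) := by
        have h5 : Tendsto (fun k => J k - 1) atTop atTop :=
          (tendsto_sub_atTop_nat 1).comp hJ
        exact h5.eventually (hpos ψ)
      have hJ1 : ∀ᶠ k in atTop, 1 ≤ J k := hJ.eventually_ge_atTop 1
      filter_upwards [eventually_ge_atTop K, hev2, hJ1] with k hk hE1 hk1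
      have hlt1 := hG'.simp (J k - 1) hE1
      rw [Nat.sub_add_cancel hk1] at hlt1
      have hlt2 := hG'.simp (J k) (hE1.trans hlt1)
      have h6 := h1 ψ hψ.1 k hk (fun l hl => by
        rcases lt_or_gt_of_ne hl with h7 | h7
        · exact (lt_of_le_of_lt ((hE ψ).mono (Nat.le_sub_one_of_lt h7)) hlt1).ne
        · exact (lt_of_lt_of_le hlt2 ((hE ψ).mono (Nat.succ_le_of_lt h7))).ne')
      have h8 : avg μ (ι s) (ι φ) - δ < avg μ (ι s) (ι ψ) := hψ.2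
      rw [hδ] at h6 h8
      linarith)
  have hgen := gen μ i a b hSf hB hW ι hι hex e E hE hJ
  refine ⟨U₁, U₂, o1, o2, o3, o4, ?_, ?_⟩
  · filter_upwards [o5, hgen] with φ h1 h2 hφ f
    have h3 := h1 h2 hφ
    rw [Metric.tendsto_atTop']
    intro ε hε
    obtain ⟨s, hs, hsf⟩ := hSd f (ε / 4) (by positivity)
    have h4 := h3 s hs (ε / 4) (by positivity)
    have h5 := h3 (-s) (hSn s hs) (ε / 4) (by positivity)
    obtain ⟨N, hN⟩ := eventually_atTop.1 (h4.and h5)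
    refine ⟨N, fun k hk => ?_⟩
    obtain ⟨h6, h7⟩ := hN k hk.le
    have e1 : kap μ i (ι (-s)) (ι φ) (e φ (J k)) =
        -kap μ i (ι s) (ι φ) (e φ (J k)) := by rw [map_neg, kap_neg]
    have e2 : avg μ (ι (-s)) (ι φ) = -avg μ (ι s) (ι φ) := by
      rw [map_neg]
      unfold avg
      rw [← neg_div, ← integral_neg]
      congr 1
      refine integral_congr_ae (Eventually.of_forall fun x => ?_)
      simp only [ContinuousMap.neg_apply]
      ring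
    rw [e1, e2] at h7
    have h8 := abs_le.1 (hkf f (ι s) φ (J k))
    have h9 := abs_le.1 (avg_sub μ hA f (ι s) (ι φ))
    rw [Real.dist_eq, abs_lt]
    constructor <;> linarith [h8.1, h8.2, h9.1, h9.2]
  · intro φ hφ
    obtain ⟨s, hs, ε, hε, V, hV, h1⟩ := o6 φ hφ
    refine ⟨ι s, ε, hε, V, hV, ?_⟩
    filter_upwards [hgen] with ψ h2 hψ
    refine (h1 ψ hψ h2).mono fun k hk => ?_
    linarith

end abs

/-- the mass of `f` for the function `v` -/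
def mass {M : Type} [TopologicalSpace M] [MeasurableSpace M] (μ : Measure M)
    (f φ : C(M, ℝ)) (v : M → ℝ) : ℝ :=
  ∫ x, f x * (v x) ^ 2 ∂(wm μ fun x => Real.exp (φ x))

/-- the mean value of `f` -/
def mean {M : Type} [TopologicalSpace M] [MeasurableSpace M] (μ : Measure M)
    (f φ : C(M, ℝ)) : ℝ :=
  (∫ x, f x ∂(wm μ fun x => Real.exp (φ x))) / (wm μ fun x => Real.exp (φ x)).real univ

theorem main (M : Type) [MetricSpace M] [CompactSpace M] [MeasurableSpace M] [BorelSpace M]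
    [Nonempty M] (μ : Measure M) (D : Data M) (hD : D.IsSurf μ)
    (F : Type) [AddCommGroup F] [Module ℝ F] [TopologicalSpace F]
    [IsTopologicalAddGroup F] [ContinuousSMul ℝ F] [BaireSpace F]
    (ι : F →L[ℝ] C(M, ℝ)) (hι : DenseRange ι)
    (u : F → ℕ → M → ℝ) (lam : F → ℕ → ℝ)
    (hu : ∀ φ, EigBasis (D.conf fun x => Real.exp (ι φ x)) (wm μ fun x => Real.exp (ι φ x))
      (u φ) (lam φ)) (J : ℕ → ℕ) (hJ : Tendsto J atTop atTop) :
    (∀ᶠ φ in residual F,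
      (∀ j, 0 < lam φ j → lam φ j < lam φ (j + 1)) ∧
      (∀ (f : C(M, ℝ)) (ε : ℝ), 0 < ε →
        (∃ᶠ k in atTop, mean μ f (ι φ) - ε < mass μ f (ι φ) (u φ (J k))) ∧
        (∃ᶠ k in atTop, mass μ f (ι φ) (u φ (J k)) < mean μ f (ι φ) + ε)) ∧
      (∀ (f : C(M, ℝ)) (c : ℝ), (∀ᶠ k in atTop, mass μ f (ι φ) (u φ (J k)) ≤ c) →
        ∀ ε : ℝ, 0 < ε → ∃ V ∈ 𝓝 φ, ∃ K : ℕ, ∀ ψ ∈ V, ∀ k, K ≤ k →
          (∀ l, l ≠ J k → lam ψ l ≠ lam ψ (J k)) →
          mass μ f (ι ψ) (u ψ (J k)) ≤ c + ε)) ∧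
    ∃ U₁ U₂ : Set F, IsOpen U₁ ∧ IsOpen U₂ ∧ Disjoint U₁ U₂ ∧ Dense (U₁ ∪ U₂) ∧
      (∀ᶠ φ in residual F, φ ∈ U₁ → ∀ f : C(M, ℝ),
        Tendsto (fun k => mass μ f (ι φ) (u φ (J k))) atTop (𝓝 (mean μ f (ι φ)))) ∧
      ∀ φ ∈ U₂, ∃ (f : C(M, ℝ)) (ε : ℝ), 0 < ε ∧ ∃ V ∈ 𝓝 φ, ∀ᶠ ψ in residual F, ψ ∈ V →
        ∃ᶠ k in atTop, mean μ f (ι ψ) + ε < mass μ f (ι ψ) (u ψ (J k)) := by
  obtain ⟨hf, -⟩ := tFin M μ D hD
  haveI := hf
  obtain ⟨i, a, hSf, hi, ha⟩ := tPackF M μ D hD inferInstance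
  obtain ⟨b, hB, hF, -, -, -⟩ := tFm M μ (HF D μ) i a hSf
  have hW := tWl M μ D hD inferInstance i a b hSf hi ha hB
  have hex : ∀ φ, ∃ (e : ℕ → HF D μ) (E : ℕ → ℝ), Eg a (b φ) e E := by
    intro φ
    obtain ⟨u, lam, h⟩ := tEx M μ D hD inferInstance φ
    obtain ⟨e, -, h2⟩ := tBr M μ D hD i a b hSf hi ha hB hF φ u lam h
    exact ⟨e, lam, h2⟩
  choose e he1 he2 using fun φ => tBr M μ D hD i a b hSf hi ha hB hF (ι φ) (u φ) (lam φ) (hu φ)
  have hk : ∀ (f : C(M, ℝ)) (φ : F) (j : ℕ), kap μ i f (ι φ) (e φ j) = mass μ f (ι φ) (u φ j) :=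
    fun f φ j => kap_eq μ i f (ι φ) _ _ (he1 φ j)
  have hm : ∀ f φ : C(M, ℝ), avg μ f φ = mean μ f φ := fun f φ => avg_eq μ f φ
  refine ⟨?_, ?_⟩
  · filter_upwards [gen μ i a b hSf hB hW ι hι hex e lam he2 hJ] with φ h
    refine ⟨h.simp, fun f ε hε => ⟨?_, ?_⟩, fun f c hc ε hε => ?_⟩
    · have := h.lo f (mean μ f (ι φ) - ε) (by rw [hm]; linarith)
      simpa only [hk] using this
    · have h1 := h.lo (-f) (-(mean μ f (ι φ)) - ε) (by
        have e2 : avg μ (-f) (ι φ) = -avg μ f (ι φ) := by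
          unfold avg
          rw [← neg_div, ← integral_neg]
          congr 1
          refine integral_congr_ae (Eventually.of_forall fun x => ?_)
          simp only [ContinuousMap.neg_apply]
          ring
        rw [e2, hm]; linarith)
      refine h1.mono fun k hkk => ?_
      rw [kap_neg, hk] at hkk
      linarith
    · have := h.loc f c (by simpa only [hk] using hc) ε hε
      simpa only [hk] using this
  · have := alt μ i a b hSf hB hW ι hι hex e lam he2 hJ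
    simpa only [hk, hm] using this

end Pool.Agent.N266.GQ
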